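import Pool.Agent.W477.CL.Stms

set_option maxHeartbeats 1000000
set_option linter.all false

namespace Pool.Agent.W15.OC

open FirstOrder FirstOrder.Language
open Pool.Agent.Helper672.ZFA hiding IsOrdPair IsPair Mem
open Pool.Agent.H310
open Pool.Agent.W924
open Pool.Agent.W477.CL

universe u

variable {M : Type u} [L.Structure M] [hM : IsModel M]

theorem int_sw : IntF M (fun q : INat M × INat M => (q.2, q.1)) := IntF.pair IntF.snd' IntF.fst'

/-- the inverse relation -/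
noncomputable def inv (p : IPow M (INat M × INat M)) : IPow M (INat M × INat M) :=
  iimage (fun q : INat M × INat M => (q.2, q.1)) p

theorem mem_inv {p : IPow M (INat M × INat M)} {x y : INat M} :
    (x, y) ∈ inv p ↔ (y, x) ∈ p := by
  unfold inv
  rw [mem_iimage int_sw]
  constructor
  · rintro ⟨⟨a, b⟩, h1, h2⟩
    simp only [Prod.mk.injEq] at h2
    obtain ⟨rfl, rfl⟩ := h2
    exact h1
  · intro h
    exact ⟨(y, x), h, rfl⟩

theorem piso_inv {c : IPow M (IPow M (INat M))} {p : IPow M (INat M × INat M)}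
    (h : PIso c c p) : PIso c c (inv p) := by
  obtain ⟨h1, h2, h3, h4⟩ := h
  refine ⟨h1.image int_sw, ?_, ?_, ?_⟩
  · intro x y y' ha hb
    rw [mem_inv] at ha hb
    exact h3 _ _ _ ha hb
  · intro x x' y ha hb
    rw [mem_inv] at ha hb
    exact h2 _ _ _ ha hb
  · intro B C hB hBC hCB
    have hC : ∃ y, y ∈ C := by
      obtain ⟨x, hx⟩ := hB
      obtain ⟨y, hy, _⟩ := hBC x hx
      exact ⟨y, hy⟩
    refine (h4 C B hC ?_ ?_).symm
    · intro y hy
      obtain ⟨x, hx, hxy⟩ := hCB y hy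
      exact ⟨x, hx, mem_inv.1 hxy⟩
    · intro x hx
      obtain ⟨y, hy, hxy⟩ := hBC x hx
      exact ⟨y, hy, mem_inv.1 hxy⟩

theorem back (h2 : P_EXT.{u}) {c : IPow M (IPow M (INat M))} {p : IPow M (INat M × INat M)}
    (hc : EP c) (hp : PIso c c p) (y : INat M) (hy : ∀ x, ¬ (x, y) ∈ p) :
    ∃ x, PIso c c (insert (x, y) p) := by
  obtain ⟨z, hz⟩ := h2 M c c (inv p) y hc (piso_inv hp) (fun z hz => hy z (mem_inv.1 hz))
  refine ⟨z, ?_⟩
  have h := piso_inv hz
  have he : inv (insert (y, z) (inv p)) = insert (z, y) p := by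
    apply IPow.ext'
    rintro ⟨a, b⟩
    rw [mem_inv, mem_insert, mem_insert, mem_inv]
    simp only [Prod.mk.injEq]
    constructor
    · rintro (⟨rfl, rfl⟩ | h)
      · exact Or.inl ⟨rfl, rfl⟩
      · exact Or.inr h
    · rintro (⟨rfl, rfl⟩ | h)
      · exact Or.inl ⟨rfl, rfl⟩
      · exact Or.inr h
  rw [he] at h
  exact h

theorem step (h2 : P_EXT.{u}) {c : IPow M (IPow M (INat M))} (hc : EP c)
    (p : IPow M (INat M × INat M)) (n : INat M) (hp : PIso c c p) :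
    ∃ p', PIso c c p' ∧ p ⊆ p' ∧ (∃ x, (x, n) ∈ p') ∧ ∃ y, (n, y) ∈ p' := by
  obtain ⟨p1, hp1, hs1, y, hy⟩ : ∃ p1, PIso c c p1 ∧ p ⊆ p1 ∧ ∃ y, (n, y) ∈ p1 := by
    by_cases h : ∃ y, (n, y) ∈ p
    · exact ⟨p, hp, fun _ h => h, h⟩
    · have h' : ∀ y, ¬ (n, y) ∈ p := fun y hy => h ⟨y, hy⟩
      obtain ⟨z, hz⟩ := h2 M c c p n hc hp h'
      exact ⟨_, hz, fun a ha => mem_insert.2 (Or.inr ha), z, mem_insert.2 (Or.inl rfl)⟩
  by_cases h : ∃ x, (x, n) ∈ p1
  · exact ⟨p1, hp1, hs1, h, y, hy⟩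
  · have h' : ∀ x, ¬ (x, n) ∈ p1 := fun x hx => h ⟨x, hx⟩
    obtain ⟨x, hx⟩ := back h2 hc hp1 n h'
    exact ⟨_, hx, fun a ha => mem_insert.2 (Or.inr (hs1 _ ha)), ⟨x, mem_insert.2 (Or.inl rfl)⟩,
      y, mem_insert.2 (Or.inr hy)⟩

theorem hom_holds (h1 : P_CHAIN.{u}) (h2 : P_EXT.{u}) : P_HOM.{u} := by
  intro M _ _ c p hc hp
  have hQ : Int M (fun p : IPow M (INat M × INat M) => PIso c c p) := int_PIso IntF.id
  have hW : Int M (fun q : INat M × IPow M (INat M × INat M) => ∃ x, (x, q.1) ∈ q.2) :=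
    Int.ex (Int.mem (IntF.pair IntF.snd' (IntF.fst IntF.fst')) (IntF.snd IntF.fst'))
  obtain ⟨f, hf0, hfs, hfB⟩ := h1 M (fun p => PIso c c p) (fun n p => ∃ x, (x, n) ∈ p) p hQ hW hp
    (fun p hp => hp.1) (fun p x y y' hp ha hb => hp.2.1 x y y' ha hb)
    (fun p n hp => step h2 hc p n hp)
  have hsurj : ∀ n, ∃ x, f x = n := by
    intro n
    obtain ⟨q, hq, ⟨x, hx⟩, hxy⟩ := hfs n
    exact ⟨x, hxy x n hx⟩
  have hinj : Inj f := by
    intro a b hab
    obtain ⟨q, hq, hB, _⟩ := hfB (insert a {b}) ((IFin.singleton b).insert a)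
    have ha := hB a (mem_insert.2 (Or.inl rfl))
    have hb := hB b (mem_insert.2 (Or.inr (mem_singleton.2 rfl)))
    rw [hab] at ha
    exact hq.2.2.1 a b (f b) ha hb
  have hbig : ∀ B : IPow M (INat M), ¬ Big 0 B := fun B h => h.1 rfl
  have hkf : ∀ B : IPow M (INat M), IFin B → (∃ x, x ∈ B) → (iimage f B ∈ c ↔ B ∈ c) := by
    intro B hB hne
    obtain ⟨q, hq, hBq, _⟩ := hfB B hB
    refine (hq.2.2.2 B (iimage f B) hne ?_ ?_).symm
    · intro x hx
      exact ⟨f x, (mem_iimage f.int).2 ⟨x, hx, rfl⟩, hBq x hx⟩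
    · intro y hy
      obtain ⟨x, hx, rfl⟩ := (mem_iimage f.int).1 hy
      exact ⟨x, hx, hBq x hx⟩
  have hu : ∀ b, ∃! a, f a = b := by
    intro b
    obtain ⟨a, ha⟩ := hsurj b
    exact ⟨a, ha, fun a' ha' => hinj _ _ (ha'.trans ha.symm)⟩
  have hgi : IntF M (fun b : INat M => the (fun a => f a = b) 0) := by
    refine IntF.the (Int.eq (IntF.comp f.int IntF.snd') IntF.fst') (IntF.const _)
  let g : IFun M (INat M) (INat M) := ⟨fun b => the (fun a => f a = b) 0, hgi⟩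
  have hg : ∀ b, f (g b) = b := fun b => the_spec (hu b)
  have hfg : ∀ a b, f a = b ↔ g b = a := by
    intro a b
    constructor
    · intro h; exact hinj _ _ ((hg b).trans h.symm)
    · rintro rfl; exact hg b
  refine ⟨f, g, hfg, hf0, hinj, ?_, ?_, ?_⟩
  · intro a b hab
    have := congrArg f hab
    rwa [hg, hg] at this
  · intro B hB hne
    rw [hkf B hB hne]
    exact ⟨Or.inl, fun h => h.resolve_right (hbig B)⟩
  · intro B hB hne
    have h3 : iimage f (iimage g B) = B := by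
      apply IPow.ext'
      intro y
      rw [mem_iimage f.int]
      constructor
      · rintro ⟨x, hx, rfl⟩
        obtain ⟨z, hz, rfl⟩ := (mem_iimage g.int).1 hx
        rw [hg]; exact hz
      · intro hy
        exact ⟨g y, (mem_iimage g.int).2 ⟨y, hy, rfl⟩, hg y⟩
    have h4 := hkf (iimage g B) (hB.image g.int) (by
      obtain ⟨x, hx⟩ := hne
      exact ⟨g x, (mem_iimage g.int).2 ⟨x, hx, rfl⟩⟩)
    rw [h3] at h4
    rw [← h4]
    exact ⟨Or.inl, fun h => h.resolve_right (hbig B)⟩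

end Pool.Agent.W15.OC
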